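import Pool.Agent.Y112.SC.Rat

/-!
# Diagonal operators on tensor powers of a super vector space: definitions
-/

set_option autoImplicit false

open CategoryTheory Limits MonoidalCategory
open Pool.Agent.Y112.SR Pool.Agent.Y112.KD Pool.Agent.Y112.SC

namespace Pool.Agent.R911.Sg

universe v u w

variable {C : Type u} [Category.{v} C] [Preadditive C] [MonoidalCategory C] [SymmetricCategory C]
  {K : Type w} [Field K]

/-- The tensor product `b 0 ⊗ … ⊗ b (n - 1)` of operators on the realisation of `M`, an operator on
the realisation of the tensor power `M ^ n`. -/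
noncomputable def tens (R : SuperRealisation C K) (M : C) : ∀ n : ℕ,
    (Fin n → (R.H.obj M ⟶ R.H.obj M)) → (R.H.obj (tp M n) ⟶ R.H.obj (tp M n))
  | 0, _ => 𝟙 _
  | n + 1, b => bx R (tens R M n (fun i => b i.castSucc)) (b (Fin.last n))

/-- The projector of the realisation of `M` to the even part, for `false`, or to the odd part, for
`true`. -/
noncomputable def ep (R : SuperRealisation C K) (M : C) (t : Bool) : R.H.obj M ⟶ R.H.obj M :=
  bif t then po R M else pe R M

/-- The diagonal operator with eigenvalues `φ`: the operator on the realisation of `M ^ n` which is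
multiplication by `φ x` on the tensor product of the even and odd parts of parities `x`. -/
noncomputable def diagOp (R : SuperRealisation C K) (M : C) (n : ℕ)
    (φ : (Fin n → Bool) → ℚ) : R.H.obj (tp M n) ⟶ R.H.obj (tp M n) :=
  ∑ x : Fin n → Bool, (φ x : K) • tens R M n (fun i => ep R M (x i))

end Pool.Agent.R911.Sg
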