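import Pool.Agent.Y112.SC.Main
import Pool.Agent.R911.Sg.Defs

/-!
# Diagonal operators on tensor powers of a super vector space
-/

set_option autoImplicit false
set_option linter.unusedSectionVars false
set_option linter.unusedSimpArgs false
set_option backward.isDefEq.respectTransparency false
set_option backward.defeqAttrib.useBackward true

open CategoryTheory Limits MonoidalCategory
open Pool.Agent.Y112.SR Pool.Agent.Y112.KD Pool.Agent.Y112.SC

namespace Pool.Agent.R911.Sg

universe v u w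

section

variable {C : Type u} [Category.{v} C] [Preadditive C] [MonoidalCategory C]
  [SymmetricCategory C] {K : Type w} [Field K] (R : SuperRealisation C K)

lemma tens_succ (M : C) (n : ℕ) (b : Fin (n + 1) → (R.H.obj M ⟶ R.H.obj M)) :
    tens R M (n + 1) b = bx R (tens R M n (fun i => b i.castSucc)) (b (Fin.last n)) := rfl

lemma diagOp_zero (M : C) (φ : (Fin 0 → Bool) → ℚ) :
    diagOp R M 0 φ = (φ Fin.elim0 : K) • 𝟙 _ := by
  rw [diagOp, Fintype.sum_subsingleton _ (Fin.elim0 : Fin 0 → Bool)]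
  rfl

lemma bx_sum_left' {Q X : C} {ι : Type*} (s : Finset ι) (a : ι → (R.H.obj Q ⟶ R.H.obj Q))
    (b : R.H.obj X ⟶ R.H.obj X) : ∑ i ∈ s, bx R (a i) b = bx R (∑ i ∈ s, a i) b :=
  bx_sum_left R s a b

lemma diagOp_succ (M : C) (n : ℕ) (φ : (Fin (n + 1) → Bool) → ℚ) :
    diagOp R M (n + 1) φ =
      bx R (diagOp R M n (fun x => φ (Fin.snoc (α := fun _ => Bool) x false))) (pe R M) +
      bx R (diagOp R M n (fun x => φ (Fin.snoc (α := fun _ => Bool) x true))) (po R M) := by
  have h1 : ∀ t : Bool, bx R (diagOp R M n (fun x => φ (Fin.snoc (α := fun _ => Bool) x t)))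
      (ep R M t) = ∑ x : Fin n → Bool, (φ (Fin.snoc (α := fun _ => Bool) x t) : K) •
        tens R M (n + 1) (fun i => ep R M (Fin.snoc (α := fun _ => Bool) x t i)) := by
    intro t
    rw [diagOp, ← bx_sum_left']
    apply Finset.sum_congr rfl
    intro x _
    rw [bx_smul_left, tens_succ]
    congr 2
    · congr 1
      funext i
      rw [Fin.snoc_castSucc]
    · rw [Fin.snoc_last]
  have h2 := h1 false
  have h3 := h1 true
  change bx R _ (pe R M) = _ at h2
  change bx R _ (po R M) = _ at h3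
  rw [h2, h3, diagOp]
  rw [← Fintype.sum_equiv (Fin.snocEquiv (fun _ : Fin (n + 1) => Bool))
    (fun p => (φ (Fin.snoc (α := fun _ => Bool) p.2 p.1) : K) •
        tens R M (n + 1) (fun i => ep R M (Fin.snoc (α := fun _ => Bool) p.2 p.1 i))) _
    (fun p => rfl)]
  rw [Fintype.sum_prod_type, Fintype.sum_bool]
  exact add_comm _ _

end

section

variable {C : Type u} [Category.{v} C] [Preadditive C] [Linear ℚ C] [MonoidalCategory C]
  [MonoidalPreadditive C] [MonoidalLinear ℚ C] [SymmetricCategory C]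
  [RightRigidCategory C] {K : Type w} [Field K] (R : SuperRealisation C K)

lemma diagOp_add (M : C) (n : ℕ) (φ ψ : (Fin n → Bool) → ℚ) :
    diagOp R M n (fun x => φ x + ψ x) = diagOp R M n φ + diagOp R M n ψ := by
  have hK := R_charZero R
  rw [diagOp, diagOp, diagOp, ← Finset.sum_add_distrib]
  apply Finset.sum_congr rfl
  intro x _
  rw [Rat.cast_add, add_smul]

lemma diagOp_smul (M : C) (n : ℕ) (c : ℚ) (φ : (Fin n → Bool) → ℚ) :
    diagOp R M n (fun x => c * φ x) = (c : K) • diagOp R M n φ := by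
  have hK := R_charZero R
  rw [diagOp, diagOp, Finset.smul_sum]
  apply Finset.sum_congr rfl
  intro x _
  rw [Rat.cast_mul, smul_smul]

lemma diagOp_mul (M : C) (n : ℕ) (φ ψ : (Fin n → Bool) → ℚ) :
    diagOp R M n φ ≫ diagOp R M n ψ = diagOp R M n (fun x => φ x * ψ x) := by
  have hK := R_charZero R
  have h2 : (2 : K) ≠ 0 := two_ne_zero
  induction n with
  | zero =>
    rw [diagOp_zero, diagOp_zero, diagOp_zero, Linear.smul_comp, Category.id_comp, smul_smul,
      Rat.cast_mul]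
  | succ n ih =>
    rw [diagOp_succ, diagOp_succ, diagOp_succ]
    simp only [Preadditive.add_comp, Preadditive.comp_add, bx_comp, pe_pe R h2, po_po R h2, pe_po,
      po_pe, bx_zero_right, ih, add_zero, zero_add]

lemma diagOp_one (M : C) (n : ℕ) : diagOp R M n (fun _ => 1) = 𝟙 _ := by
  have hK := R_charZero R
  have h2 : (2 : K) ≠ 0 := two_ne_zero
  induction n with
  | zero => rw [diagOp_zero, Rat.cast_one, one_smul]
  | succ n ih => rw [diagOp_succ, ih, ← bx_add_right, pe_add_po R h2, bx_one]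

lemma diagOp_const (M : C) (n : ℕ) (c : ℚ) : diagOp R M n (fun _ => c) = (c : K) • 𝟙 _ := by
  rw [← diagOp_one, ← diagOp_smul]
  simp only [mul_one]

/-- The involution on the second tensor power. -/
lemma diagOp_par_two (M : C) : R.par (tp M 2) =
    diagOp R M 2 (fun x => if x 0 = x 1 then 1 else -1) := by
  have hK := R_charZero R
  have h2 : (2 : K) ≠ 0 := two_ne_zero
  have h : R.par (tp M 0) = 𝟙 _ := R.par_unit
  have e0 : ∀ y z : Bool, (Fin.snoc (α := fun _ => Bool) (Fin.snoc (α := fun _ => Bool)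
      (Fin.elim0 : Fin 0 → Bool) y) z : Fin 2 → Bool) 0 = y := by
    intro y z
    rfl
  have e1 : ∀ y z : Bool, (Fin.snoc (α := fun _ => Bool) (Fin.snoc (α := fun _ => Bool)
      (Fin.elim0 : Fin 0 → Bool) y) z : Fin 2 → Bool) 1 = z := by
    intro y z
    rfl
  have h3 : R.par (tp M 2) = bx R (bx R (𝟙 _) (R.par M)) (R.par M) := by
    rw [← h, bx_par, bx_par]
  rw [h3, diagOp_succ, diagOp_succ, diagOp_succ, diagOp_zero, diagOp_zero, diagOp_zero,
    diagOp_zero]
  simp only [e0, e1, if_true, Bool.false_eq_true, Bool.true_eq_false, if_false, Rat.cast_one,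
    one_smul, Rat.cast_neg, bx_smul_left]
  rw [← pe_sub_po R h2]
  have hs : ∀ {Q X : C} (a : R.H.obj Q ⟶ R.H.obj Q) (b c : R.H.obj X ⟶ R.H.obj X),
      bx R a (b - c) = bx R a b - bx R a c := by
    intro Q X a b c
    rw [sub_eq_add_neg, bx_add_right, ← neg_one_smul K c, bx_smul_right, neg_one_smul,
      sub_eq_add_neg]
  have hs' : ∀ {Q X : C} (a a' : R.H.obj Q ⟶ R.H.obj Q) (b : R.H.obj X ⟶ R.H.obj X),
      bx R (a - a') b = bx R a b - bx R a' b := by
    intro Q X a a' b
    rw [sub_eq_add_neg, bx_add_left, ← neg_one_smul K a', bx_smul_left, neg_one_smul,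
      sub_eq_add_neg]
  simp only [hs, hs', bx_add_left, bx_smul_left]
  module

/-- The exchange of the last two factors acts on diagonal operators. -/
lemma diagOp_swap (M : C) (n : ℕ) (φ : (Fin n → Bool) → Bool → Bool → ℚ)
    (Φ Ψ : (Fin (n + 2) → Bool) → ℚ)
    (hΦ : ∀ x y z, Φ (Fin.snoc (α := fun _ => Bool) (Fin.snoc (α := fun _ => Bool) x y) z) =
      φ x y z)
    (hΨ : ∀ x y z, Ψ (Fin.snoc (α := fun _ => Bool) (Fin.snoc (α := fun _ => Bool) x y) z) =
      φ x z y) :
    Sg R M n ≫ diagOp R M (n + 2) Φ ≫ Sg R M n = diagOp R M (n + 2) Ψ := by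
  have hK := R_charZero R
  have h2 : (2 : K) ≠ 0 := two_ne_zero
  have key : ∀ (a : R.H.obj (tp M n) ⟶ R.H.obj (tp M n)) (b c : R.H.obj M ⟶ R.H.obj M),
      b ≫ R.par M = R.par M ≫ b → c ≫ R.par M = R.par M ≫ c →
      Sg R M n ≫ bx R (bx R a b) c ≫ Sg R M n = bx R (bx R a c) b := by
    intro a b c hb hc
    have h1 := bx_sw R h2 a b c hb hc
    have h4 := Sg_Sg R M n
    rw [Sg] at h4 ⊢
    rw [h1, ← Category.assoc, h4, Category.id_comp]
  rw [diagOp_succ, diagOp_succ, diagOp_succ, diagOp_succ, diagOp_succ, diagOp_succ]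
  simp only [hΦ, hΨ, bx_add_left, Preadditive.add_comp, Preadditive.comp_add]
  rw [key _ _ _ (pe_comm R M) (pe_comm R M), key _ _ _ (po_comm R M) (pe_comm R M),
    key _ _ _ (pe_comm R M) (po_comm R M), key _ _ _ (po_comm R M) (po_comm R M)]
  abel

/-- The partial trace with the exchange of the last two factors identifies two variables. -/
lemma PT_diagOp (M : C) (n : ℕ) (φ : (Fin n → Bool) → Bool → Bool → ℚ)
    (Φ : (Fin (n + 2) → Bool) → ℚ) (Ψ : (Fin (n + 1) → Bool) → ℚ)
    (hΦ : ∀ x y z, Φ (Fin.snoc (α := fun _ => Bool) (Fin.snoc (α := fun _ => Bool) x y) z) =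
      φ x y z)
    (hΨ : ∀ x y, Ψ (Fin.snoc (α := fun _ => Bool) x y) = φ x y y) :
    PT R (diagOp R M (n + 2) Φ ≫ Sg R M n) = diagOp R M (n + 1) Ψ := by
  have hK := R_charZero R
  have h2 : (2 : K) ≠ 0 := two_ne_zero
  have key : ∀ (a : R.H.obj (tp M n) ⟶ R.H.obj (tp M n)) (b c : R.H.obj M ⟶ R.H.obj M),
      b ≫ R.par M = R.par M ≫ b → c ≫ R.par M = R.par M ≫ c →
      PT R (bx R (bx R a b) c ≫ Sg R M n) = bx R a (b ≫ c) := by
    intro a b c hb hc
    have h1 : bx R (bx R a b) c = bx R (bx R a b) (𝟙 _) ≫ bx R (bx R (𝟙 _) (𝟙 _)) c := by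
      rw [bx_comp, bx_one, Category.comp_id, Category.id_comp]
    have h3 := bx_sw R h2 (𝟙 (R.H.obj (tp M n))) (𝟙 _) c (by simp) hc
    rw [h1, Category.assoc, Sg, h3, PT_comp, PT_sw, Category.id_comp, bx_comp, Category.comp_id]
  rw [diagOp_succ, diagOp_succ, diagOp_succ, diagOp_succ]
  simp only [hΦ, hΨ, bx_add_left, Preadditive.add_comp, PT_add]
  rw [key _ _ _ (pe_comm R M) (pe_comm R M), key _ _ _ (po_comm R M) (pe_comm R M),
    key _ _ _ (pe_comm R M) (po_comm R M), key _ _ _ (po_comm R M) (po_comm R M), pe_pe R h2,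
    po_po R h2, pe_po, po_pe, bx_zero_right, bx_zero_right]
  abel

/-- The diagonal operator with eigenvalues `φ` is algebraic. -/
def Al (M : C) (n : ℕ) (φ : (Fin n → Bool) → ℚ) : Prop :=
  ∃ f : tp M n ⟶ tp M n, R.H.map f = diagOp R M n φ

variable {R}

lemma Al.add {M : C} {n : ℕ} {φ ψ : (Fin n → Bool) → ℚ} (h : Al R M n φ) (h' : Al R M n ψ) :
    Al R M n (fun x => φ x + ψ x) := by
  obtain ⟨f, hf⟩ := h
  obtain ⟨g, hg⟩ := h'
  exact ⟨f + g, by rw [Functor.map_add, hf, hg, diagOp_add]⟩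

lemma Al.mul {M : C} {n : ℕ} {φ ψ : (Fin n → Bool) → ℚ} (h : Al R M n φ) (h' : Al R M n ψ) :
    Al R M n (fun x => φ x * ψ x) := by
  obtain ⟨f, hf⟩ := h
  obtain ⟨g, hg⟩ := h'
  exact ⟨f ≫ g, by rw [Functor.map_comp, hf, hg, diagOp_mul]⟩

lemma Al.smul {M : C} {n : ℕ} {φ : (Fin n → Bool) → ℚ} (c : ℚ) (h : Al R M n φ) :
    Al R M n (fun x => c * φ x) := by
  have hK := R_charZero R
  obtain ⟨f, hf⟩ := h
  exact ⟨c • f, by rw [R_smul, hf, diagOp_smul]⟩

lemma Al.const (M : C) (n : ℕ) (c : ℚ) : Al R M n (fun _ => c) := by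
  have hK := R_charZero R
  exact ⟨c • 𝟙 _, by rw [R_smul, CategoryTheory.Functor.map_id, diagOp_const]⟩

/-- Exchange of the last two variables. -/
def sw2 {n : ℕ} (Φ : (Fin (n + 2) → Bool) → ℚ) : (Fin (n + 2) → Bool) → ℚ := fun x =>
  Φ (Fin.snoc (α := fun _ => Bool) (Fin.snoc (α := fun _ => Bool)
    (fun i : Fin n => x i.castSucc.castSucc) (x (Fin.last (n + 1)))) (x (Fin.last n).castSucc))

lemma sw2_apply {n : ℕ} (Φ : (Fin (n + 2) → Bool) → ℚ) (x : Fin n → Bool) (y z : Bool) :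
    sw2 Φ (Fin.snoc (α := fun _ => Bool) (Fin.snoc (α := fun _ => Bool) x y) z) =
      Φ (Fin.snoc (α := fun _ => Bool) (Fin.snoc (α := fun _ => Bool) x z) y) := by
  simp only [sw2, Fin.snoc_last, Fin.snoc_castSucc]

lemma Al.sw2 {M : C} {n : ℕ} {Φ : (Fin (n + 2) → Bool) → ℚ} (h : Al R M (n + 2) Φ) :
    Al R M (n + 2) (sw2 Φ) := by
  obtain ⟨f, hf⟩ := h
  refine ⟨sw (tp M n) M ≫ f ≫ sw (tp M n) M, ?_⟩
  rw [Functor.map_comp, Functor.map_comp, hf]
  exact diagOp_swap R M n (fun x y z => Φ (Fin.snoc (α := fun _ => Bool)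
    (Fin.snoc (α := fun _ => Bool) x y) z)) _ _ (fun _ _ _ => rfl) (fun x y z => sw2_apply Φ x y z)

/-- Exchange of the two variables before the last one. -/
def sw3 {n : ℕ} (Φ : (Fin (n + 3) → Bool) → ℚ) : (Fin (n + 3) → Bool) → ℚ := fun x =>
  Sg.sw2 (fun y => Φ (Fin.snoc (α := fun _ => Bool) y (x (Fin.last (n + 2)))))
    (fun i => x i.castSucc)

lemma sw3_apply {n : ℕ} (Φ : (Fin (n + 3) → Bool) → ℚ) (x : Fin (n + 2) → Bool) (t : Bool) :
    sw3 Φ (Fin.snoc (α := fun _ => Bool) x t) =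
      Sg.sw2 (fun y => Φ (Fin.snoc (α := fun _ => Bool) y t)) x := by
  simp only [sw3, Fin.snoc_last, Fin.snoc_castSucc]

lemma diagOp_sw2 (M : C) (n : ℕ) (Φ : (Fin (n + 2) → Bool) → ℚ) :
    Sg R M n ≫ diagOp R M (n + 2) Φ ≫ Sg R M n = diagOp R M (n + 2) (Sg.sw2 Φ) :=
  diagOp_swap R M n (fun x y z => Φ (Fin.snoc (α := fun _ => Bool)
    (Fin.snoc (α := fun _ => Bool) x y) z)) _ _ (fun _ _ _ => rfl) (fun x y z => sw2_apply Φ x y z)

lemma Al.sw3 {M : C} {n : ℕ} {Φ : (Fin (n + 3) → Bool) → ℚ} (h : Al R M (n + 3) Φ) :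
    Al R M (n + 3) (sw3 Φ) := by
  obtain ⟨f, hf⟩ := h
  refine ⟨(sw (tp M n) M ▷ M) ≫ f ≫ (sw (tp M n) M ▷ M), ?_⟩
  rw [Functor.map_comp, Functor.map_comp, hf, map_whiskerRight_eq]
  have h1 : R.H.map (sw (tp M n) M) = Sg R M n := rfl
  rw [h1, diagOp_succ R M (n + 2) Φ, diagOp_succ R M (n + 2) (Sg.sw3 Φ), Preadditive.add_comp,
    Preadditive.comp_add, bx_comp, bx_comp, bx_comp, bx_comp, diagOp_sw2, diagOp_sw2]
  simp only [Category.comp_id, Category.id_comp, sw3_apply]

/-- Identification of the last two variables. -/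
def res {n : ℕ} (Φ : (Fin (n + 2) → Bool) → ℚ) : (Fin (n + 1) → Bool) → ℚ := fun x =>
  Φ (Fin.snoc (α := fun _ => Bool) x (x (Fin.last n)))

lemma res_apply {n : ℕ} (Φ : (Fin (n + 2) → Bool) → ℚ) (x : Fin n → Bool) (y : Bool) :
    res Φ (Fin.snoc (α := fun _ => Bool) x y) =
      Φ (Fin.snoc (α := fun _ => Bool) (Fin.snoc (α := fun _ => Bool) x y) y) := by
  simp only [res, Fin.snoc_last]

lemma Al.res {M : C} {n : ℕ} {Φ : (Fin (n + 2) → Bool) → ℚ} (h : Al R M (n + 2) Φ) :
    Al R M (n + 1) (res Φ) := by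
  obtain ⟨f, hf⟩ := h
  refine ⟨ptr (f ≫ sw (tp M n) M), ?_⟩
  rw [← PT_map, Functor.map_comp, hf]
  exact PT_diagOp R M n (fun x y z => Φ (Fin.snoc (α := fun _ => Bool)
    (Fin.snoc (α := fun _ => Bool) x y) z)) _ _ (fun _ _ _ => rfl) (fun x y => res_apply Φ x y)

/-- The case of one factor. -/
lemma cplus_of_al_one {M : C} {φ : (Fin 1 → Bool) → ℚ} (h : Al R M 1 φ)
    (hne : φ (fun _ => false) ≠ φ (fun _ => true)) : R.CPlus M := by
  have hK := R_charZero R
  have h2 : (2 : K) ≠ 0 := two_ne_zero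
  apply cplus_tp_one R
  obtain ⟨f, hf⟩ := h
  have e0 : (Fin.snoc (α := fun _ => Bool) (Fin.elim0 : Fin 0 → Bool) false : Fin 1 → Bool) =
      fun _ => false := by
    funext i
    have hi : i = Fin.last 0 := Subsingleton.elim (α := Fin 1) i _
    rw [hi, Fin.snoc_last]
  have e1 : (Fin.snoc (α := fun _ => Bool) (Fin.elim0 : Fin 0 → Bool) true : Fin 1 → Bool) =
      fun _ => true := by
    funext i
    have hi : i = Fin.last 0 := Subsingleton.elim (α := Fin 1) i _
    rw [hi, Fin.snoc_last]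
  rw [diagOp_succ, diagOp_zero, diagOp_zero, e0, e1, bx_smul_left, bx_smul_left] at hf
  have h0 : R.par (tp M 0) = 𝟙 _ := R.par_unit
  have h3 : R.par (tp M 1) = bx R (𝟙 _) (R.par M) := by
    rw [← h0, bx_par]
  set a := φ (fun _ => false) with ha
  set b := φ (fun _ => true) with hb
  have hab : a - b ≠ 0 := sub_ne_zero.2 hne
  have h4 : R.H.map f = (((a - b) / 2 : ℚ) : K) • R.par (tp M 1) +
      (((a + b) / 2 : ℚ) : K) • 𝟙 _ := by
    rw [hf, h3, pe, po, bx_smul_right, bx_smul_right, bx_add_right, sub_eq_add_neg, bx_add_right,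
      ← neg_one_smul K (R.par M), bx_smul_right, bx_one]
    push_cast
    module
  rw [cplus_iff]
  refine ⟨((a - b) / 2)⁻¹ • (f - ((a + b) / 2) • 𝟙 _), ?_⟩
  rw [R_smul, Functor.map_sub, R_smul, CategoryTheory.Functor.map_id, h4, add_sub_cancel_right,
    smul_smul, ← Rat.cast_mul, inv_mul_cancel₀ (by intro h; apply hab; linarith), Rat.cast_one,
    one_smul]

/-- Points of the square. -/
def mk2 (a b : Bool) : Fin 2 → Bool :=
  Fin.snoc (α := fun _ => Bool) (Fin.snoc (α := fun _ => Bool) (Fin.elim0 : Fin 0 → Bool) a) b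

lemma eq_mk2 (x : Fin 2 → Bool) : x = mk2 (x 0) (x 1) := by
  funext i
  fin_cases i <;> rfl

lemma mk2_zero (a b : Bool) : mk2 a b 0 = a := rfl

lemma mk2_one (a b : Bool) : mk2 a b 1 = b := rfl

lemma cplus_of_al_sign {M : C}
    (h : Al R M 2 (fun x => if x 0 = x 1 then 1 else -1)) : R.CPlus M := by
  by_cases hM : IsZero (R.H.obj M)
  · exact cplus_of_isZero R M hM
  · obtain ⟨f, hf⟩ := h
    rw [← diagOp_par_two] at hf
    have h1 : R.CPlus (tp M 2) := (cplus_iff R _).2 ⟨f, hf⟩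
    exact cplus_tp_one R (cplus_of_tensor R hM h1)

/-- The case of two factors. -/
lemma cplus_of_al_two {M : C} {φ : (Fin 2 → Bool) → ℚ} (h : Al R M 2 φ)
    (hne : ∃ x y, φ x ≠ φ y) : R.CPlus M := by
  by_cases h1 : φ (mk2 false false) = φ (mk2 true true)
  · set c := φ (mk2 true true) with hc
    set d := φ (mk2 true false) with hd
    set e := φ (mk2 false true) with he
    have hde : (d - c) ^ 2 + (e - c) ^ 2 ≠ 0 := by
      intro h0
      have hd0 : d = c := by nlinarith [sq_nonneg (d - c), sq_nonneg (e - c)]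
      have he0 : e = c := by nlinarith [sq_nonneg (d - c), sq_nonneg (e - c)]
      obtain ⟨x, y, hxy⟩ := hne
      apply hxy
      have hall : ∀ z, φ z = c := by
        intro z
        rw [eq_mk2 z]
        rcases z 0 with _ | _ <;> rcases z 1 with _ | _
        · exact h1
        · exact he0
        · exact hd0
        · rfl
      rw [hall, hall]
    set s := (d - c) ^ 2 + (e - c) ^ 2 with hs
    have a1 : Al R M 2 (fun x => φ x + (-c)) := h.add (Al.const M 2 (-c))
    have a2 := a1.mul a1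
    have a3 := a2.add a2.sw2
    have a4 := (Al.const (R := R) M 2 1).add (a3.smul (-2 / s))
    apply cplus_of_al_sign
    convert a4 using 1
    funext x
    have e1 : ∀ a b, Sg.sw2 (n := 0) (fun x : Fin 2 → Bool => (φ x + -c) * (φ x + -c)) (mk2 a b) =
        (φ (mk2 b a) + -c) * (φ (mk2 b a) + -c) := by
      intro a b
      exact sw2_apply _ _ _ _
    rw [eq_mk2 x, e1, mk2_zero, mk2_one]
    rcases x 0 with _ | _ <;> rcases x 1 with _ | _
    · rw [h1]; simp
    · rw [← he, ← hd, if_neg (by simp)]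
      have : (e + -c) * (e + -c) + (d + -c) * (d + -c) = s := by rw [hs]; ring
      rw [this]
      field_simp
      norm_num
    · rw [← he, ← hd, if_neg (by simp)]
      have : (d + -c) * (d + -c) + (e + -c) * (e + -c) = s := by rw [hs]; ring
      rw [this]
      field_simp
      norm_num
    · rw [← hc]; simp
  · apply cplus_of_al_one h.res
    have e0 : (fun _ : Fin 1 => false) = Fin.snoc (α := fun _ => Bool)
        (Fin.elim0 : Fin 0 → Bool) false := by
      funext i
      have hi : i = Fin.last 0 := Subsingleton.elim (α := Fin 1) i _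
      rw [hi, Fin.snoc_last]
    have e1 : (fun _ : Fin 1 => true) = Fin.snoc (α := fun _ => Bool)
        (Fin.elim0 : Fin 0 → Bool) true := by
      funext i
      have hi : i = Fin.last 0 := Subsingleton.elim (α := Fin 1) i _
      rw [hi, Fin.snoc_last]
    rw [e0, e1, res_apply, res_apply]
    exact h1

lemma snoc_init {n : ℕ} (x : Fin (n + 1) → Bool) :
    x = Fin.snoc (α := fun _ => Bool) (fun i => x i.castSucc) (x (Fin.last n)) := by
  exact (Fin.snoc_init_self x).symm

/-- Three identifications detect that a function is not constant. -/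
lemma exists_res {n : ℕ} {φ : (Fin (n + 3) → Bool) → ℚ} (hne : ∃ x y, φ x ≠ φ y) :
    (∃ x y, res φ x ≠ res φ y) ∨ (∃ x y, res (Sg.sw3 φ) x ≠ res (Sg.sw3 φ) y) ∨
      (∃ x y, res (Sg.sw3 (Sg.sw2 φ)) x ≠ res (Sg.sw3 (Sg.sw2 φ)) y) := by
  by_contra hcon
  push Not at hcon
  obtain ⟨h1, h2, h3⟩ := hcon
  let F : (Fin n → Bool) → Bool → Bool → Bool → ℚ := fun w a b d =>
    φ (Fin.snoc (α := fun _ => Bool) (Fin.snoc (α := fun _ => Bool)
      (Fin.snoc (α := fun _ => Bool) w a) b) d)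
  have f1 : ∀ w a b w' a' b', F w a b b = F w' a' b' b' := by
    intro w a b w' a' b'
    have := h1 (Fin.snoc (α := fun _ => Bool) (Fin.snoc (α := fun _ => Bool) w a) b)
      (Fin.snoc (α := fun _ => Bool) (Fin.snoc (α := fun _ => Bool) w' a') b')
    rwa [res_apply, res_apply] at this
  have f2 : ∀ w a b w' a' b', F w b a b = F w' b' a' b' := by
    intro w a b w' a' b'
    have := h2 (Fin.snoc (α := fun _ => Bool) (Fin.snoc (α := fun _ => Bool) w a) b)
      (Fin.snoc (α := fun _ => Bool) (Fin.snoc (α := fun _ => Bool) w' a') b')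
    rwa [res_apply, res_apply, sw3_apply, sw3_apply, sw2_apply, sw2_apply] at this
  have f3 : ∀ w a b w' a' b', F w b b a = F w' b' b' a' := by
    intro w a b w' a' b'
    have := h3 (Fin.snoc (α := fun _ => Bool) (Fin.snoc (α := fun _ => Bool) w a) b)
      (Fin.snoc (α := fun _ => Bool) (Fin.snoc (α := fun _ => Bool) w' a') b')
    rwa [res_apply, res_apply, sw3_apply, sw3_apply, sw2_apply, sw2_apply, sw2_apply, sw2_apply]
      at this
  have hF : ∀ w a b d, F w a b d = F (fun _ => false) false false false := by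
    intro w a b d
    by_cases hbd : b = d
    · subst hbd; exact f1 _ _ _ _ _ _
    · by_cases had : a = d
      · subst had; exact f2 _ _ _ _ _ _
      · have hab : a = b := by
          rcases a with _ | _ <;> rcases b with _ | _ <;> rcases d with _ | _ <;> simp_all
        subst hab; exact f3 _ _ _ _ _ _
  obtain ⟨x, y, hxy⟩ := hne
  apply hxy
  have hall : ∀ z, φ z = F (fun _ => false) false false false := by
    intro z
    rw [← hF (fun i => z i.castSucc.castSucc.castSucc) (z (Fin.last n).castSucc.castSucc)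
      (z (Fin.last (n + 1)).castSucc) (z (Fin.last (n + 2)))]
    change φ z = φ _
    congr 1
    rw [snoc_init z]
    congr 1
    · rw [snoc_init (fun i : Fin (n + 2) => z i.castSucc)]
      congr 1
      · rw [snoc_init (fun i : Fin (n + 1) => z i.castSucc.castSucc)]
        simp only [Fin.snoc_last, Fin.snoc_castSucc]
      · simp only [Fin.snoc_last, Fin.snoc_castSucc]
    · simp only [Fin.snoc_last, Fin.snoc_castSucc]
  rw [hall, hall]

/-- A diagonal operator which is not a multiple of the identity implies the sign conjecture. -/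
theorem cplus_of_al {M : C} (n : ℕ) : ∀ {φ : (Fin (n + 1) → Bool) → ℚ}, Al R M (n + 1) φ →
    (∃ x y, φ x ≠ φ y) → R.CPlus M := by
  induction n with
  | zero =>
    intro φ h hne
    apply cplus_of_al_one h
    intro h0
    obtain ⟨x, y, hxy⟩ := hne
    apply hxy
    have hall : ∀ z : Fin 1 → Bool, φ z = φ (fun _ => true) := by
      intro z
      have hz : z = fun _ => z 0 := by
        funext i
        rw [Subsingleton.elim (α := Fin 1) i 0]
      rw [hz]
      rcases z 0 with _ | _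
      · exact h0
      · rfl
    rw [hall, hall y]
  | succ n ih =>
    rcases n with _ | n
    · intro φ h hne
      exact cplus_of_al_two h hne
    · intro φ h hne
      rcases exists_res hne with h1 | h1 | h1
      · exact ih h.res h1
      · exact ih h.sw3.res h1
      · exact ih h.sw2.sw3.res h1

/-- The converse. -/
theorem al_of_cplus {M : C} (h : R.CPlus M) (n : ℕ) : ∀ (φ : (Fin n → Bool) → ℚ), Al R M n φ := by
  have hK := R_charZero R
  have h2 : (2 : K) ≠ 0 := two_ne_zero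
  obtain ⟨g, hg⟩ := (cplus_iff R M).1 h
  have he : R.H.map ((2 : ℚ)⁻¹ • (𝟙 _ + g)) = pe R M := by
    rw [R_smul, Functor.map_add, hg, CategoryTheory.Functor.map_id, pe]
    push_cast
    rfl
  have ho : R.H.map ((2 : ℚ)⁻¹ • (𝟙 _ - g)) = po R M := by
    rw [R_smul, Functor.map_sub, hg, CategoryTheory.Functor.map_id, po]
    push_cast
    rfl
  induction n with
  | zero =>
    intro φ
    refine ⟨(φ Fin.elim0) • 𝟙 _, ?_⟩
    rw [R_smul, CategoryTheory.Functor.map_id, diagOp_zero]
  | succ n ih =>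
    intro φ
    obtain ⟨f, hf⟩ := ih (fun x => φ (Fin.snoc (α := fun _ => Bool) x false))
    obtain ⟨f', hf'⟩ := ih (fun x => φ (Fin.snoc (α := fun _ => Bool) x true))
    refine ⟨(f ⊗ₘ ((2 : ℚ)⁻¹ • (𝟙 _ + g))) + (f' ⊗ₘ ((2 : ℚ)⁻¹ • (𝟙 _ - g))), ?_⟩
    rw [Functor.map_add, ← bx_map, ← bx_map, he, ho, hf, hf', diagOp_succ]

/-- **The main theorem.** -/
theorem main (R : SuperRealisation C K) (M : C) (n : ℕ) (φ : (Fin n → Bool) → ℚ)
    (hφ : ∃ x y, φ x ≠ φ y) :
    R.CPlus M ↔ ∃ f : tp M n ⟶ tp M n, R.H.map f = diagOp R M n φ := by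
  constructor
  · intro h
    exact al_of_cplus h n φ
  · intro h
    rcases n with _ | n
    · obtain ⟨x, y, hxy⟩ := hφ
      exact absurd (congrArg φ (Subsingleton.elim x y)) hxy
    · exact cplus_of_al n h hφ

end

end Pool.Agent.R911.Sg
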