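import Pool.Agent.R911.Sg.Defs

/-!
# Diagonal operators on a tensor product of two super vector spaces: definitions
-/

set_option autoImplicit false

open CategoryTheory Limits MonoidalCategory
open Pool.Agent.Y112.SR Pool.Agent.Y112.KD Pool.Agent.Y112.SC

namespace Pool.Agent.R911.Sg

universe v u w

variable {C : Type u} [Category.{v} C] [Preadditive C] [MonoidalCategory C] [SymmetricCategory C]
  {K : Type w} [Field K]

/-- The diagonal operator on the realisation of `M ⊗ N` with eigenvalues `φ`: multiplication by
`φ x y` on the tensor product of the part of parity `x` of the realisation of `M` and the part of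
parity `y` of the realisation of `N`. -/
noncomputable def pairOp (R : SuperRealisation C K) (M N : C) (φ : Bool → Bool → ℚ) :
    R.H.obj (M ⊗ N) ⟶ R.H.obj (M ⊗ N) :=
  ∑ x : Bool, ∑ y : Bool, (φ x y : K) • bx R (ep R M x) (ep R N y)

/-- The realisation of `M` has a nonzero even part and a nonzero odd part. -/
def Mixed (R : SuperRealisation C K) (M : C) : Prop :=
  R.par M ≠ 𝟙 _ ∧ R.par M ≠ -𝟙 _

/-- The function `φ` of two variables depends on each of its variables. -/
def DependsOnBoth (φ : Bool → Bool → ℚ) : Prop :=
  (∃ y, φ false y ≠ φ true y) ∧ (∃ x, φ x false ≠ φ x true)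

end Pool.Agent.R911.Sg
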