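import Pool.Agent.R911.Sg.Main
import Pool.Agent.R911.Sg.PairDefs

/-!
# Diagonal operators on a tensor product of two super vector spaces
-/

set_option autoImplicit false
set_option linter.unusedSectionVars false
set_option linter.unusedSimpArgs false
set_option backward.isDefEq.respectTransparency false
set_option backward.defeqAttrib.useBackward true

open CategoryTheory Limits MonoidalCategory
open Pool.Agent.Y112.SR Pool.Agent.Y112.KD Pool.Agent.Y112.SC

namespace Pool.Agent.R911.Sg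

universe v u w

open Functor.LaxMonoidal Functor.OplaxMonoidal

section

variable {C : Type u} [Category.{v} C] [Preadditive C] [MonoidalCategory C]
  [SymmetricCategory C] {K : Type w} [Field K] (R : SuperRealisation C K)

/-- The symmetry is natural with respect to even operators. -/
lemma bx_braid' (h2 : (2 : K) ≠ 0) {X Y : C} (b : R.H.obj X ⟶ R.H.obj X)
    (c : R.H.obj Y ⟶ R.H.obj Y)
    (hb : b ≫ R.par X = R.par X ≫ b) (hc : c ≫ R.par Y = R.par Y ≫ c) :
    bx R b c ≫ R.H.map (β_ X Y).hom = R.H.map (β_ X Y).hom ≫ bx R c b := by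
  have h3 : (b ⊗ₘ c) ≫ (𝟙 _ + R.par X ▷ R.H.obj Y + R.H.obj X ◁ R.par Y - (R.par X ⊗ₘ R.par Y)) =
      (𝟙 _ + R.par X ▷ R.H.obj Y + R.H.obj X ◁ R.par Y - (R.par X ⊗ₘ R.par Y)) ≫ (b ⊗ₘ c) := by
    simp only [Preadditive.sub_comp, Preadditive.add_comp, Preadditive.comp_sub,
      Preadditive.comp_add, Category.id_comp, Category.comp_id, ← tensorHom_id, ← id_tensorHom,
      tensorHom_comp_tensorHom, hb, hc]
  have h4 : (2 : K) • ((b ⊗ₘ c) ≫ μ R.H X Y ≫ R.H.map (β_ X Y).hom) =
      (2 : K) • (μ R.H X Y ≫ R.H.map (β_ X Y).hom ≫ δ R.H Y X ≫ (c ⊗ₘ b) ≫ μ R.H Y X) := by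
    rw [← Linear.comp_smul, R.symm, ← Category.assoc (b ⊗ₘ c), h3, Category.assoc,
      BraidedCategory.braiding_naturality_assoc]
    have h5 : (2 : K) • (μ R.H X Y ≫ R.H.map (β_ X Y).hom ≫ δ R.H Y X ≫ (c ⊗ₘ b) ≫ μ R.H Y X) =
        ((2 : K) • (μ R.H X Y ≫ R.H.map (β_ X Y).hom)) ≫ δ R.H Y X ≫ (c ⊗ₘ b) ≫ μ R.H Y X := by
      rw [Linear.smul_comp, Category.assoc]
    rw [h5, R.symm]
    simp only [Category.assoc, Functor.Monoidal.μ_δ_assoc]
  have h5 := congrArg (fun z => (2 : K)⁻¹ • z) h4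
  simp only [smul_smul, inv_mul_cancel₀ h2, one_smul] at h5
  rw [bx, Category.assoc, Category.assoc, h5, bx, Functor.Monoidal.δ_μ_assoc]

lemma pairOp_eq (M N : C) (φ : Bool → Bool → ℚ) : pairOp R M N φ =
    (φ false false : K) • bx R (pe R M) (pe R N) + (φ false true : K) • bx R (pe R M) (po R N) +
    ((φ true false : K) • bx R (po R M) (pe R N) + (φ true true : K) • bx R (po R M) (po R N)) := by
  simp only [pairOp, Fintype.sum_bool]
  change ((φ true true : K) • bx R (po R M) (po R N) + (φ true false : K) • bx R (po R M) (pe R N)) +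
    ((φ false true : K) • bx R (pe R M) (po R N) + (φ false false : K) • bx R (pe R M) (pe R N)) = _
  abel

lemma bx_zero_left' {Q X : C} (b : R.H.obj X ⟶ R.H.obj X) :
    bx R (0 : R.H.obj Q ⟶ R.H.obj Q) b = 0 := bx_zero_left R b

end

section

variable {C : Type u} [Category.{v} C] [Preadditive C] [Linear ℚ C] [MonoidalCategory C]
  [MonoidalPreadditive C] [MonoidalLinear ℚ C] [SymmetricCategory C]
  [RightRigidCategory C] {K : Type w} [Field K] (R : SuperRealisation C K)

/-- The diagonal operator is algebraic. -/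
def Alp (M N : C) (φ : Bool → Bool → ℚ) : Prop :=
  ∃ f : M ⊗ N ⟶ M ⊗ N, R.H.map f = pairOp R M N φ

variable {R} {M N : C}

lemma Alp.add {φ ψ : Bool → Bool → ℚ} (h : Alp R M N φ) (h' : Alp R M N ψ) :
    Alp R M N (fun x y => φ x y + ψ x y) := by
  have hK := R_charZero R
  obtain ⟨f, hf⟩ := h
  obtain ⟨g, hg⟩ := h'
  refine ⟨f + g, ?_⟩
  rw [Functor.map_add, hf, hg, pairOp_eq, pairOp_eq, pairOp_eq]
  push_cast
  module

lemma Alp.smul {φ : Bool → Bool → ℚ} (c : ℚ) (h : Alp R M N φ) :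
    Alp R M N (fun x y => c * φ x y) := by
  have hK := R_charZero R
  obtain ⟨f, hf⟩ := h
  refine ⟨c • f, ?_⟩
  rw [R_smul, hf, pairOp_eq, pairOp_eq]
  push_cast
  module

lemma Alp.const (c : ℚ) : Alp R M N (fun _ _ => c) := by
  have hK := R_charZero R
  have h2 : (2 : K) ≠ 0 := two_ne_zero
  refine ⟨c • 𝟙 _, ?_⟩
  have h1 : 𝟙 (R.H.obj (M ⊗ N)) = bx R (pe R M) (pe R N) + bx R (pe R M) (po R N) +
      (bx R (po R M) (pe R N) + bx R (po R M) (po R N)) := by
    rw [← bx_add_right, ← bx_add_right, pe_add_po R h2, ← bx_add_left, pe_add_po R h2, bx_one]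
  rw [R_smul, CategoryTheory.Functor.map_id, pairOp_eq, h1]
  module

lemma Alp.mul {φ ψ : Bool → Bool → ℚ} (h : Alp R M N φ) (h' : Alp R M N ψ) :
    Alp R M N (fun x y => φ x y * ψ x y) := by
  have hK := R_charZero R
  have h2 : (2 : K) ≠ 0 := two_ne_zero
  obtain ⟨f, hf⟩ := h
  obtain ⟨g, hg⟩ := h'
  refine ⟨f ≫ g, ?_⟩
  rw [Functor.map_comp, hf, hg, pairOp_eq, pairOp_eq, pairOp_eq]
  simp only [Preadditive.add_comp, Preadditive.comp_add, Linear.smul_comp, Linear.comp_smul,
    bx_comp, pe_pe R h2, po_po R h2, pe_po, po_pe, bx_zero_right, bx_zero_left', smul_zero,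
    add_zero, zero_add, smul_smul]
  push_cast
  module

/-- Arbitrary functions of an algebraic function are algebraic. -/
lemma Alp.comp {φ : Bool → Bool → ℚ} (h : Alp R M N φ) (g : ℚ → ℚ) :
    Alp R M N (fun x y => g (φ x y)) := by
  classical
  let s : Finset ℚ := Finset.univ.image (fun p : Bool × Bool => φ p.1 p.2)
  let P : Polynomial ℚ := Lagrange.interpolate s id g
  have hP : ∀ x y, P.eval (φ x y) = g (φ x y) := by
    intro x y
    have hmem : φ x y ∈ s := Finset.mem_image.2 ⟨(x, y), Finset.mem_univ _, rfl⟩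
    exact Lagrange.eval_interpolate_at_node g (Set.injOn_id _) hmem
  have key : ∀ Q : Polynomial ℚ, Alp R M N (fun x y => Q.eval (φ x y)) := by
    intro Q
    induction Q using Polynomial.induction_on' with
    | add p q hp hq =>
      simp only [Polynomial.eval_add]
      exact hp.add hq
    | monomial n a =>
      simp only [Polynomial.eval_monomial]
      apply Alp.smul a
      induction n with
      | zero => simp only [pow_zero]; exact Alp.const 1
      | succ n ih => simp only [pow_succ]; exact ih.mul h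
  have := key P
  simpa only [hP] using this

/-- Exchange of the factors. -/
lemma Alp.swap {φ : Bool → Bool → ℚ} (h : Alp R M N φ) : Alp R N M (fun x y => φ y x) := by
  have hK := R_charZero R
  have h2 : (2 : K) ≠ 0 := two_ne_zero
  obtain ⟨f, hf⟩ := h
  refine ⟨(β_ N M).hom ≫ f ≫ (β_ M N).hom, ?_⟩
  have key : ∀ (b : R.H.obj M ⟶ R.H.obj M) (c : R.H.obj N ⟶ R.H.obj N),
      b ≫ R.par M = R.par M ≫ b → c ≫ R.par N = R.par N ≫ c →
      R.H.map (β_ N M).hom ≫ bx R b c ≫ R.H.map (β_ M N).hom = bx R c b := by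
    intro b c hb hc
    rw [bx_braid' R h2 b c hb hc, ← Category.assoc, ← Functor.map_comp]
    simp
  rw [Functor.map_comp, Functor.map_comp, hf, pairOp_eq, pairOp_eq]
  simp only [Preadditive.add_comp, Preadditive.comp_add, Linear.smul_comp, Linear.comp_smul]
  rw [key _ _ (pe_comm R M) (pe_comm R N), key _ _ (po_comm R M) (pe_comm R N),
    key _ _ (pe_comm R M) (po_comm R N), key _ _ (po_comm R M) (po_comm R N)]
  abel

/-- The partial trace over the second factor. -/
lemma cplus_of_trace {φ : Bool → Bool → ℚ} (h : Alp R M N φ) (p q : ℕ)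
    (hp : LinearMap.trace K (R.H.obj N) (𝟙 (R.H.obj N) : R.H.obj N ⟶ R.H.obj N).hom = p + q)
    (hq : LinearMap.trace K (R.H.obj N) (R.par N).hom = p - q)
    (hne : p * φ false false - q * φ false true ≠ p * φ true false - q * φ true true) :
    R.CPlus M := by
  have hK := R_charZero R
  have h2 : (2 : K) ≠ 0 := two_ne_zero
  obtain ⟨f, hf⟩ := h
  have t1 : LinearMap.trace K (R.H.obj N) (pe R N ≫ R.par N).hom = (p : K) := by
    rw [pe, Linear.smul_comp, Preadditive.add_comp, Category.id_comp, R.par_sq, ModuleCat.hom_smul,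
      ModuleCat.hom_add, map_smul, map_add, hp, hq, smul_eq_mul]
    field_simp
    ring
  have t2 : LinearMap.trace K (R.H.obj N) (po R N ≫ R.par N).hom = -(q : K) := by
    rw [po, Linear.smul_comp, Preadditive.sub_comp, Category.id_comp, R.par_sq, ModuleCat.hom_smul,
      ModuleCat.hom_sub, map_smul, map_sub, hp, hq, smul_eq_mul]
    field_simp
    ring
  have h3 : R.H.map (ptr f) = ((p * φ false false - q * φ false true : ℚ) : K) • pe R M +
      ((p * φ true false - q * φ true true : ℚ) : K) • po R M := by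
    rw [← PT_map, hf, pairOp_eq, PT_add, PT_add, PT_add, PT_smul, PT_smul, PT_smul, PT_smul,
      PT_bx R h2, PT_bx R h2, PT_bx R h2, PT_bx R h2, t1, t2]
    push_cast
    module
  set a : ℚ := p * φ false false - q * φ false true with ha
  set b : ℚ := p * φ true false - q * φ true true with hb
  have hab : a - b ≠ 0 := sub_ne_zero.2 hne
  rw [cplus_iff]
  refine ⟨((a - b) / 2)⁻¹ • (ptr f - ((a + b) / 2) • 𝟙 _), ?_⟩
  have h4 : R.H.map (ptr f) = (((a - b) / 2 : ℚ) : K) • R.par M +
      (((a + b) / 2 : ℚ) : K) • 𝟙 _ := by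
    rw [h3, pe, po]
    push_cast
    module
  rw [R_smul, Functor.map_sub, R_smul, CategoryTheory.Functor.map_id, h4, add_sub_cancel_right,
    smul_smul, ← Rat.cast_mul, inv_mul_cancel₀ (by intro h; apply hab; linarith), Rat.cast_one,
    one_smul]

lemma block {p q a b c d : ℚ} (hp : 0 < p) (hq : 0 < q)
    (key : ∀ t : ℚ, p * (if a = t then 1 else 0) - q * (if b = t then 1 else 0) =
      p * (if c = t then 1 else 0) - q * (if d = t then 1 else 0))
    (hac : a ≠ c ∨ b ≠ d) (hab : a ≠ b ∨ c ≠ d) : False := by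
  by_cases h1 : a = c
  · subst h1
    have hbd : b ≠ d := by
      rcases hac with h | h
      · exact absurd rfl h
      · exact h
    have k := key b
    rw [if_pos (rfl : b = b), if_neg (Ne.symm hbd)] at k
    linarith
  · have k := key a
    rw [if_pos (rfl : a = a), if_neg (Ne.symm h1)] at k
    by_cases h2 : b = a
    · subst h2
      have k2 := key c
      rw [if_neg h1, if_pos (rfl : c = c)] at k2
      by_cases h3 : d = c
      · subst h3
        rcases hab with h | h
        · exact h rfl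
        · exact h rfl
      · rw [if_neg h3] at k2
        linarith
    · rw [if_neg h2] at k
      by_cases h3 : d = a
      · rw [if_pos h3] at k
        linarith
      · rw [if_neg h3] at k
        linarith

/-- The main step. -/
theorem cplus_left (hN : Mixed R N) {φ : Bool → Bool → ℚ} (hφ : DependsOnBoth φ)
    (h : Alp R M N φ) : R.CPlus M := by
  have hK := R_charZero R
  by_contra hC
  obtain ⟨p, q, hp, hq, hp0, hq0⟩ := exists_pq R hK N
  have hp1 : p ≠ 0 := fun h0 => hN.2 (hp0 h0)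
  have hq1 : q ≠ 0 := fun h0 => hN.1 (hq0 h0)
  have key : ∀ c : ℚ, (p : ℚ) * (if φ false false = c then 1 else 0) -
      q * (if φ false true = c then 1 else 0) =
      p * (if φ true false = c then 1 else 0) - q * (if φ true true = c then 1 else 0) := by
    intro c
    by_contra hne
    exact hC (cplus_of_trace (h.comp (fun t => if t = c then 1 else 0)) p q hp hq hne)
  have hpp : (0 : ℚ) < p := by exact_mod_cast Nat.pos_of_ne_zero hp1
  have hqq : (0 : ℚ) < q := by exact_mod_cast Nat.pos_of_ne_zero hq1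
  obtain ⟨⟨y, hy⟩, ⟨x, hx⟩⟩ := hφ
  refine block hpp hqq key ?_ ?_
  · rcases y with _ | _
    · exact Or.inl hy
    · exact Or.inr hy
  · rcases x with _ | _
    · exact Or.inl hx
    · exact Or.inr hx

/-- The converse. -/
theorem alp_of_cplus (hM : R.CPlus M) (hN : R.CPlus N) (φ : Bool → Bool → ℚ) : Alp R M N φ := by
  have hK := R_charZero R
  have h2 : (2 : K) ≠ 0 := two_ne_zero
  obtain ⟨g, hg⟩ := (cplus_iff R M).1 hM
  obtain ⟨g', hg'⟩ := (cplus_iff R N).1 hN
  have he : R.H.map ((2 : ℚ)⁻¹ • (𝟙 _ + g)) = pe R M := by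
    rw [R_smul, Functor.map_add, hg, CategoryTheory.Functor.map_id, pe]
    push_cast
    rfl
  have ho : R.H.map ((2 : ℚ)⁻¹ • (𝟙 _ - g)) = po R M := by
    rw [R_smul, Functor.map_sub, hg, CategoryTheory.Functor.map_id, po]
    push_cast
    rfl
  have he' : R.H.map ((2 : ℚ)⁻¹ • (𝟙 _ + g')) = pe R N := by
    rw [R_smul, Functor.map_add, hg', CategoryTheory.Functor.map_id, pe]
    push_cast
    rfl
  have ho' : R.H.map ((2 : ℚ)⁻¹ • (𝟙 _ - g')) = po R N := by
    rw [R_smul, Functor.map_sub, hg', CategoryTheory.Functor.map_id, po]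
    push_cast
    rfl
  refine ⟨(φ false false • (((2 : ℚ)⁻¹ • (𝟙 _ + g)) ⊗ₘ ((2 : ℚ)⁻¹ • (𝟙 _ + g'))) +
    φ false true • (((2 : ℚ)⁻¹ • (𝟙 _ + g)) ⊗ₘ ((2 : ℚ)⁻¹ • (𝟙 _ - g')))) +
    (φ true false • (((2 : ℚ)⁻¹ • (𝟙 _ - g)) ⊗ₘ ((2 : ℚ)⁻¹ • (𝟙 _ + g'))) +
    φ true true • (((2 : ℚ)⁻¹ • (𝟙 _ - g)) ⊗ₘ ((2 : ℚ)⁻¹ • (𝟙 _ - g')))), ?_⟩
  rw [Functor.map_add, Functor.map_add, Functor.map_add, R_smul, R_smul, R_smul, R_smul, ← bx_map,
    ← bx_map, ← bx_map, ← bx_map, he, ho, he', ho', pairOp_eq]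

/-- **The main theorem on pairs.** -/
theorem pair_iff (hM : Mixed R M) (hN : Mixed R N) {φ : Bool → Bool → ℚ}
    (hφ : DependsOnBoth φ) :
    (R.CPlus M ∧ R.CPlus N) ↔ ∃ f : M ⊗ N ⟶ M ⊗ N, R.H.map f = pairOp R M N φ := by
  constructor
  · rintro ⟨h1, h2⟩
    exact alp_of_cplus h1 h2 φ
  · intro h
    have h' : Alp R M N φ := h
    exact ⟨cplus_left hN hφ h', cplus_left hM ⟨hφ.2, hφ.1⟩ h'.swap⟩

end

end Pool.Agent.R911.Sg
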